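import Pool.Agent.Helper95.RK.GoalsC
import Pool.Agent.Helper95.RK.Basics
import Pool.Agent.Helper95.Lin.Basics

/-! # RK, packet PFAFF: the Frobenius theorem in graph form

One direction after the other: given a solution `u` of the equations in the directions `e j`, `j ∈ S`, the
flow of `(e i, f i)` started at the graph of `u` over a hyperplane transversal to `e i` and containing the
`e j`, `j ∈ S`, is a solution of the equations in the directions `insert i S`. -/

open Complex Metric Set Filter Topology MeasureTheory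
open scoped ContDiff ComplexConjugate ComplexOrder Manifold Matrix

namespace Pool.Agent.Helper32.RK

open Pool.Agent.Helper95.Lin Pool.Agent.Helper10.SP Pool.Agent.Helper95.RK Pool.Agent.Helper8.Abund
  Pool.Agent.Helper16.Abund

section step

variable {n : ℕ} {F : Type} [NormedAddCommGroup F] [NormedSpace ℂ F] [FiniteDimensional ℂ F]

omit [FiniteDimensional ℂ F] in
/-- First component of the flow of `(e, f)`. -/
theorem flow_fst {W : Set (Cn n × F)} {f : Cn n × F → F} {e : Cn n} {p : Cn n × F} {r : ℝ}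
    (hr : 0 < r) {φ : (Cn n × F) × ℂ → Cn n × F} (h0 : ∀ y ∈ ball p r, φ (y, 0) = y)
    (h1 : ∀ y ∈ ball p r, ∀ t ∈ ball (0 : ℂ) r,
      φ (y, t) ∈ W ∧ HasDerivAt (fun s => φ (y, s)) (e, f (φ (y, t))) t) :
    ∀ y ∈ ball p r, ∀ t ∈ ball (0 : ℂ) r, (φ (y, t)).1 = y.1 + t • e := by
  intro y hy t ht
  have h2 : ∀ s ∈ ball (0 : ℂ) r, HasDerivWithinAt (fun s => (φ (y, s)).1 - s • e) 0
      (ball (0 : ℂ) r) s := by
    intro s hs
    have h3 : HasDerivAt (fun s => (φ (y, s)).1) e s :=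
      (ContinuousLinearMap.fst ℂ (Cn n) F).hasFDerivAt.comp_hasDerivAt s (h1 y hy s hs).2
    have h4 : HasDerivAt (fun s : ℂ => s • e) e s := by
      simpa using (hasDerivAt_id s).smul_const e
    have h5 := h3.sub h4
    rw [sub_self] at h5
    exact h5.hasDerivWithinAt
  have h6 := (convex_ball (0 : ℂ) r).norm_image_sub_le_of_norm_hasDerivWithin_le (C := 0) h2
    (fun s _ => by simp) (mem_ball_self hr) ht
  rw [zero_mul, norm_le_zero_iff, h0 y hy, zero_smul, sub_zero, sub_eq_zero] at h6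
  rw [← h6]
  simp

/-- The derivative of the defect. -/
theorem defect {W : Set (Cn n × F)} (hW : IsOpen W) {g h : Cn n × F → F} {e e' : Cn n}
    (hg : DifferentiableOn ℂ g W) (hh : DifferentiableOn ℂ h W)
    (hint : ∀ w ∈ W, fderiv ℂ h w (e, g w) = fderiv ℂ g w (e', h w))
    {B : Set (Cn n)} (hB : IsOpen B) {u : Cn n → F} (hu : DifferentiableOn ℂ u B)
    (huW : ∀ x ∈ B, (x, u x) ∈ W) (hue : ∀ x ∈ B, fderiv ℂ u x e = g (x, u x)) (x : Cn n)
    (hx : x ∈ B) :
    HasFDerivAt (fun y => fderiv ℂ u y e' - h (y, u y))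
      (fderiv ℂ (fun y => fderiv ℂ u y e' - h (y, u y)) x) x ∧
    fderiv ℂ (fun y => fderiv ℂ u y e' - h (y, u y)) x e =
      fderiv ℂ g (x, u x) (0, fderiv ℂ u x e' - h (x, u x)) := by
  have : CompleteSpace F := FiniteDimensional.complete ℂ F
  have hd1 : ∀ y ∈ B, DifferentiableAt ℂ u y := fun y hy => hu.differentiableAt (hB.mem_nhds hy)
  have hd2 : ∀ y ∈ B, DifferentiableAt ℂ (fderiv ℂ u) y := fun y hy =>
    (holo_fderiv hB hu).differentiableAt (hB.mem_nhds hy)
  have hgr : ∀ y ∈ B, HasFDerivAt (fun y => (y, u y))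
      ((ContinuousLinearMap.id ℂ (Cn n)).prod (fderiv ℂ u y)) y := fun y hy =>
    (hasFDerivAt_id y).prodMk (hd1 y hy).hasFDerivAt
  have hg' : ∀ y ∈ B, HasFDerivAt (fun y => g (y, u y))
      ((fderiv ℂ g (y, u y)).comp ((ContinuousLinearMap.id ℂ (Cn n)).prod (fderiv ℂ u y))) y :=
    fun y hy => ((hg.differentiableAt (hW.mem_nhds (huW y hy))).hasFDerivAt).comp y (hgr y hy)
  have hh' : ∀ y ∈ B, HasFDerivAt (fun y => h (y, u y))
      ((fderiv ℂ h (y, u y)).comp ((ContinuousLinearMap.id ℂ (Cn n)).prod (fderiv ℂ u y))) y :=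
    fun y hy => ((hh.differentiableAt (hW.mem_nhds (huW y hy))).hasFDerivAt).comp y (hgr y hy)
  have happ : ∀ v : Cn n, HasFDerivAt (fun y => fderiv ℂ u y v)
      ((ContinuousLinearMap.apply ℂ F v).comp (fderiv ℂ (fderiv ℂ u) x)) x := fun v =>
    (ContinuousLinearMap.apply ℂ F v).hasFDerivAt.comp x (hd2 x hx).hasFDerivAt
  have hE := (happ e').sub (hh' x hx)
  have hE' : HasFDerivAt (fun y => fderiv ℂ u y e' - h (y, u y)) _ x := hE
  refine ⟨hE'.differentiableAt.hasFDerivAt, ?_⟩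
  rw [hE'.fderiv]
  have hsym := second_derivative_symmetric_of_eventually (𝕜 := ℂ) (f := u) (f' := fderiv ℂ u)
    (x := x) (f'' := fderiv ℂ (fderiv ℂ u) x)
    (by
      filter_upwards [hB.mem_nhds hx] with y hy
      exact (hd1 y hy).hasFDerivAt) (hd2 x hx).hasFDerivAt e e'
  have h1 : fderiv ℂ (fderiv ℂ u) x e' e = fderiv ℂ g (x, u x) (e', fderiv ℂ u x e') := by
    have h2 : HasFDerivAt (fun y => fderiv ℂ u y e)
        ((fderiv ℂ g (x, u x)).comp ((ContinuousLinearMap.id ℂ (Cn n)).prod (fderiv ℂ u x))) x := by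
      refine (hg' x hx).congr_of_eventuallyEq ?_
      filter_upwards [hB.mem_nhds hx] with y hy
      exact hue y hy
    have h3 := (happ e).unique h2
    have h4 := DFunLike.congr_fun h3 e'
    simpa using h4
  have h5 := hint (x, u x) (huW x hx)
  simp only [sub_apply, ContinuousLinearMap.comp_apply,
    ContinuousLinearMap.apply_apply, ContinuousLinearMap.prod_apply, ContinuousLinearMap.id_apply]
  rw [hsym, h1, hue x hx, h5, ← map_sub]
  congr 1
  simp

omit [FiniteDimensional ℂ F] in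
/-- Local bound for the derivative of a holomorphic map. -/
theorem fderiv_bound {W : Set (Cn n × F)} (hW : IsOpen W) {g : Cn n × F → F}
    (hg : DifferentiableOn ℂ g W) {p : Cn n × F} (hp : p ∈ W) :
    ∃ r > 0, ∃ K : ℝ, ∀ w ∈ ball p r, ‖fderiv ℂ g w‖ ≤ K := by
  obtain ⟨r, M, hr, hsub, hM⟩ := exists_ball_bound hW hg hp
  refine ⟨r, hr, M / r, fun w hw => ?_⟩
  have h1 : ball w (2 * r) ⊆ ball p (6 * r) := by
    refine ball_subset_ball' ?_
    have := mem_ball.1 hw
    linarith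
  exact norm_fderiv_le_of_bound hr (hg.mono (h1.trans hsub)) fun u hu => hM u (h1 hu)

theorem step (hFLOW : S_FLOW) {ι : Type*} (W : Set (Cn n × F)) (hW : IsOpen W)
    (f : ι → Cn n × F → F) (e : ι → Cn n) (hf : ∀ i, DifferentiableOn ℂ (f i) W)
    (hint : ∀ w ∈ W, ∀ i j, fderiv ℂ (f j) w (e i, f i w) = fderiv ℂ (f i) w (e j, f j w))
    (x₀ : Cn n) (i : ι) (l : Cn n →L[ℂ] ℂ) (hl : l (e i) = 1) (S : Set ι)
    (hS : ∀ j ∈ S, l (e j) = 0) (u : Cn n → F) (U : Set (Cn n)) (hU : IsOpen U) (hx₀ : x₀ ∈ U)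
    (hu : DifferentiableOn ℂ u U) (huW : (x₀, u x₀) ∈ W)
    (huS : ∀ x ∈ U, ∀ j ∈ S, fderiv ℂ u x (e j) = f j (x, u x)) :
    ∃ (U' : Set (Cn n)) (u' : Cn n → F), IsOpen U' ∧ x₀ ∈ U' ∧ DifferentiableOn ℂ u' U' ∧
      (∀ x ∈ U', (x, u' x) ∈ W) ∧ (∀ x ∈ U', ∀ j ∈ insert i S, fderiv ℂ u' x (e j) = f j (x, u' x)) ∧
      ∀ x ∈ U', l (x - x₀) = 0 → x ∈ U ∧ u' x = u x := by
  have : CompleteSpace F := FiniteDimensional.complete ℂ F
  obtain ⟨r, hr, φ, hφ, hφ0, hφ1⟩ := hFLOW (Cn n × F) W (fun w => (e i, f i w)) hW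
    ((differentiableOn_const _).prodMk (hf i)) (x₀, u x₀) huW
  have hfst := flow_fst hr hφ0 hφ1
  obtain ⟨r₂, hr₂, K, hK⟩ := fderiv_bound hW (hf i) huW
  set p : Cn n × F := (x₀, u x₀) with hp
  set P : Cn n → Cn n := fun x => x - l (x - x₀) • e i with hP
  have hPd : Differentiable ℂ P := by
    intro x
    exact differentiableAt_id.sub ((l.differentiableAt.comp x
      (differentiableAt_id.sub_const x₀)).smul_const (e i))
  have hPx₀ : P x₀ = x₀ := by simp [hP]
  set κ : Cn n → Cn n × F := fun x => (P x, u (P x)) with hκ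
  have hκx₀ : κ x₀ = p := by simp only [hκ, hPx₀, hp]
  set u' : Cn n → F := fun x => (φ (κ x, l (x - x₀))).2 with hu'
  have hlc : Continuous fun x : Cn n => l (x - x₀) := l.continuous.comp (continuous_id.sub
    continuous_const)
  -- the first neighbourhood
  have hcu : ContinuousAt u x₀ := (hu.differentiableAt (hU.mem_nhds hx₀)).continuousAt
  have hPt : Tendsto P (𝓝 x₀) (𝓝 x₀) := by
    have := hPd.continuous.tendsto x₀
    rwa [hPx₀] at this
  have hκt : Tendsto κ (𝓝 x₀) (𝓝 p) := hPt.prodMk_nhds (hcu.tendsto.comp hPt)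
  have hlt : Tendsto (fun x : Cn n => l (x - x₀)) (𝓝 x₀) (𝓝 0) := by
    have := hlc.tendsto x₀
    simpa using this
  obtain ⟨δ₁, hδ₁, hB₁⟩ : ∃ δ > 0, ∀ x ∈ ball x₀ δ, x ∈ U ∧ P x ∈ U ∧ κ x ∈ ball p r ∧
      l (x - x₀) ∈ ball (0 : ℂ) r := by
    have := (hU.mem_nhds hx₀ : U ∈ 𝓝 x₀)
    have h2 := hPt (hU.mem_nhds hx₀)
    have h3 := hκt (ball_mem_nhds p hr)
    have h4 := hlt (ball_mem_nhds 0 hr)
    exact Metric.mem_nhds_iff.1 (inter_mem this (inter_mem h2 (inter_mem h3 h4)))
  have hdu' : DifferentiableOn ℂ u' (ball x₀ δ₁) := by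
    have h1 : DifferentiableOn ℂ (fun x => (κ x, l (x - x₀))) (ball x₀ δ₁) := by
      refine DifferentiableOn.prodMk (DifferentiableOn.prodMk hPd.differentiableOn
        (hu.comp hPd.differentiableOn fun x hx => (hB₁ x hx).2.1)) ?_
      exact (l.differentiable.comp (differentiable_id.sub_const x₀)).differentiableOn
    exact (hφ.comp h1 fun x hx => mk_mem_prod (hB₁ x hx).2.2.1 (hB₁ x hx).2.2.2).snd
  have hgraph : ∀ x ∈ ball x₀ δ₁, φ (κ x, l (x - x₀)) = (x, u' x) := by
    intro x hx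
    refine Prod.ext ?_ rfl
    rw [hfst _ (hB₁ x hx).2.2.1 _ (hB₁ x hx).2.2.2]
    simp [hκ, hP]
  have huW' : ∀ x ∈ ball x₀ δ₁, (x, u' x) ∈ W := by
    intro x hx
    rw [← hgraph x hx]
    exact (hφ1 _ (hB₁ x hx).2.2.1 _ (hB₁ x hx).2.2.2).1
  have hu'x₀ : u' x₀ = u x₀ := by
    simp only [hu', sub_self, map_zero]
    rw [hκx₀, hφ0 p (mem_ball_self hr)]
  have hcu' : ContinuousAt u' x₀ :=
    (hdu'.differentiableAt (ball_mem_nhds x₀ hδ₁)).continuousAt
  -- the second neighbourhood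
  obtain ⟨δ, hδ, hB⟩ : ∃ δ > 0, ∀ x ∈ ball x₀ δ, x ∈ ball x₀ δ₁ ∧ (x, u' x) ∈ ball p r₂ := by
    have h2 : Tendsto (fun x => (x, u' x)) (𝓝 x₀) (𝓝 p) := by
      have := (continuousAt_id (x := x₀)).tendsto.prodMk_nhds hcu'.tendsto
      rwa [id, hu'x₀] at this
    exact Metric.mem_nhds_iff.1 (inter_mem (ball_mem_nhds x₀ hδ₁) (h2 (ball_mem_nhds p hr₂)))
  obtain ⟨δ', hδ', hB'⟩ : ∃ δ' > 0, ∀ x ∈ ball x₀ δ', x ∈ ball x₀ δ ∧ P x ∈ ball x₀ δ :=
    Metric.mem_nhds_iff.1 (inter_mem (ball_mem_nhds x₀ hδ) (hPt (ball_mem_nhds x₀ hδ)))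
  have hB1 : ball x₀ δ ⊆ ball x₀ δ₁ := fun x hx => (hB x hx).1
  have hdB : DifferentiableOn ℂ u' (ball x₀ δ) := hdu'.mono hB1
  -- derivative in the direction `e i`
  have hei : ∀ x ∈ ball x₀ δ, fderiv ℂ u' x (e i) = f i (x, u' x) := by
    intro x hx
    have hx1 := hB1 hx
    have h1 : HasDerivAt (fun s : ℂ => u' (x + s • e i)) (fderiv ℂ u' x (e i)) 0 := by
      have h2 : HasFDerivAt u' (fderiv ℂ u' x) (x + (0 : ℂ) • e i) := by
        rw [zero_smul, add_zero]
        exact (hdu'.differentiableAt (isOpen_ball.mem_nhds hx1)).hasFDerivAt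
      have h3 : HasDerivAt (fun s : ℂ => x + s • e i) (e i) 0 := by
        simpa using ((hasDerivAt_id (0 : ℂ)).smul_const (e i)).const_add x
      exact h2.comp_hasDerivAt 0 h3
    have h4 : (fun s : ℂ => u' (x + s • e i)) = fun s => (φ (κ x, l (x - x₀) + s)).2 := by
      funext s
      have h5 : P (x + s • e i) = P x := by
        have : x + s • e i - x₀ = (x - x₀) + s • e i := by abel
        simp only [hP, this, map_add, map_smul, hl, smul_eq_mul, mul_one, add_smul]
        abel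
      have h6 : l (x + s • e i - x₀) = l (x - x₀) + s := by
        have : x + s • e i - x₀ = (x - x₀) + s • e i := by abel
        rw [this, map_add, map_smul, hl, smul_eq_mul, mul_one]
      simp only [hu', hκ, h5, h6]
    have h7 : HasDerivAt (fun s : ℂ => (φ (κ x, l (x - x₀) + s)).2) (f i (x, u' x)) 0 := by
      have h8 := (hφ1 _ (hB₁ x hx1).2.2.1 _ (hB₁ x hx1).2.2.2).2
      rw [hgraph x hx1] at h8
      have h9 : HasDerivAt (fun s => (φ (κ x, s)).2) (f i (x, u' x)) (l (x - x₀)) :=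
        (ContinuousLinearMap.snd ℂ (Cn n) F).hasFDerivAt.comp_hasDerivAt _ h8
      have h10 : HasDerivAt (fun s : ℂ => l (x - x₀) + s) 1 0 := by
        simpa using (hasDerivAt_id (0 : ℂ)).const_add (l (x - x₀))
      have h11 : HasDerivAt (fun s => (φ (κ x, s)).2) (f i (x, u' x)) (l (x - x₀) + 0) := by
        rwa [add_zero]
      have h12 := h11.scomp (0 : ℂ) h10
      rwa [one_smul] at h12
    rw [h4] at h1
    exact h1.unique h7
  -- on the hyperplane
  have hhyp : ∀ x ∈ ball x₀ δ, l (x - x₀) = 0 → u' x = u x := by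
    intro x hx hlx
    have h1 : P x = x := by
      show x - l (x - x₀) • e i = x
      rw [hlx, zero_smul, sub_zero]
    have h2 : κ x ∈ ball p r := (hB₁ x (hB1 hx)).2.2.1
    simp only [hu', hlx]
    rw [hφ0 _ h2]
    simp only [hκ, h1]
  have hej0 : ∀ j ∈ S, ∀ x ∈ ball x₀ δ, l (x - x₀) = 0 →
      fderiv ℂ u' x (e j) - f j (x, u' x) = 0 := by
    intro j hj x hx hlx
    have hxU : x ∈ U := (hB₁ x (hB1 hx)).1
    have h1 : HasDerivAt (fun s : ℂ => u' (x + s • e j)) (fderiv ℂ u' x (e j)) 0 := by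
      have h2 : HasFDerivAt u' (fderiv ℂ u' x) (x + (0 : ℂ) • e j) := by
        rw [zero_smul, add_zero]
        exact (hdB.differentiableAt (isOpen_ball.mem_nhds hx)).hasFDerivAt
      have h3 : HasDerivAt (fun s : ℂ => x + s • e j) (e j) 0 := by
        simpa using ((hasDerivAt_id (0 : ℂ)).smul_const (e j)).const_add x
      exact h2.comp_hasDerivAt 0 h3
    have h1' : HasDerivAt (fun s : ℂ => u (x + s • e j)) (fderiv ℂ u x (e j)) 0 := by
      have h2 : HasFDerivAt u (fderiv ℂ u x) (x + (0 : ℂ) • e j) := by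
        rw [zero_smul, add_zero]
        exact (hu.differentiableAt (hU.mem_nhds hxU)).hasFDerivAt
      have h3 : HasDerivAt (fun s : ℂ => x + s • e j) (e j) 0 := by
        simpa using ((hasDerivAt_id (0 : ℂ)).smul_const (e j)).const_add x
      exact h2.comp_hasDerivAt 0 h3
    have h4 : (fun s : ℂ => u' (x + s • e j)) =ᶠ[𝓝 0] fun s : ℂ => u (x + s • e j) := by
      have hc : ContinuousAt (fun s : ℂ => x + s • e j) 0 := by fun_prop
      have h5 : Tendsto (fun s : ℂ => x + s • e j) (𝓝 0) (𝓝 x) := by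
        have := hc.tendsto
        simpa using this
      filter_upwards [h5 (isOpen_ball.mem_nhds hx)] with s hs
      refine hhyp _ hs ?_
      have h6 : x + s • e j - x₀ = (x - x₀) + s • e j := by abel
      rw [h6, map_add, map_smul, hS j hj, hlx, smul_zero, add_zero]
    have h7 := (h1'.congr_of_eventuallyEq h4).unique h1
    rw [← h7, huS x hxU j hj, hhyp x hx hlx, sub_self]
  refine ⟨ball x₀ δ', u', isOpen_ball, mem_ball_self hδ', hdB.mono fun x hx => (hB' x hx).1,
    fun x hx => huW' x (hB1 (hB' x hx).1), ?_, fun x hx hlx => ⟨(hB₁ x (hB1 (hB' x hx).1)).1,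
      hhyp x (hB' x hx).1 hlx⟩⟩
  intro x hx j hj
  rcases Set.mem_insert_iff.1 hj with rfl | hj
  · exact hei x (hB' x hx).1
  · -- propagation along `e i`
    set c := l (x - x₀) with hc
    have hlP : l (P x - x₀) = 0 := by
      have h1 : P x - x₀ = (x - x₀) - c • e i := by
        simp only [hP]
        abel
      rw [h1, map_sub, map_smul, hl, smul_eq_mul, mul_one, sub_self]
    set E : Cn n → F := fun y => fderiv ℂ u' y (e j) - f j (y, u' y) with hE
    have hdef : ∀ y ∈ ball x₀ δ, HasFDerivAt E (fderiv ℂ E y) y ∧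
        fderiv ℂ E y (e i) = fderiv ℂ (f i) (y, u' y) (0, E y) := fun y hy =>
      defect hW (hf i) (hf j) (fun w hw => hint w hw i j) isOpen_ball hdB
        (fun y hy => huW' y (hB1 hy)) hei y hy
    set γ : ℝ → Cn n := fun s => P x + (s : ℂ) • (c • e i) with hγ
    have hγ0 : γ 0 = P x := by simp [hγ]
    have hγ1 : γ 1 = x := by simp [hγ, hP, hc]
    have hγB : ∀ s ∈ Icc (0 : ℝ) 1, γ s ∈ ball x₀ δ := by
      intro s hs
      have h1 := (convex_ball x₀ δ).add_smul_sub_mem (hB' x hx).2 (hB' x hx).1 hs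
      have h2 : γ s = P x + s • (x - P x) := by
        simp only [hγ]
        congr 1
        have h3 : x - P x = c • e i := by
          simp only [hP]
          abel
        rw [h3]
        rfl
      rw [h2]
      exact h1
    have hθ : ∀ s ∈ Icc (0 : ℝ) 1, HasDerivAt (fun s => E (γ s))
        (c • fderiv ℂ (f i) (γ s, u' (γ s)) (0, E (γ s))) s := by
      intro s hs
      obtain ⟨h1, h2⟩ := hdef (γ s) (hγB s hs)
      have h3 : HasDerivAt γ (c • e i) s := by
        have h4 : HasDerivAt (fun s : ℝ => (s : ℂ)) 1 s := Complex.ofRealCLM.hasDerivAt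
        have h5 := (h4.smul_const (c • e i)).const_add (P x)
        rwa [one_smul] at h5
      have h6 : HasFDerivAt E ((fderiv ℂ E (γ s)).restrictScalars ℝ) (γ s) :=
        h1.restrictScalars ℝ
      have h7 := h6.comp_hasDerivAt s h3
      rw [← h2]
      have h8 : (fderiv ℂ E (γ s)).restrictScalars ℝ (c • e i) = c • fderiv ℂ E (γ s) (e i) := by
        rw [ContinuousLinearMap.coe_restrictScalars', map_smul]
      rw [← h8]
      exact h7
    have hz := eq_zero_of_abs_deriv_le_mul_abs_self_of_eq_zero_right (f := fun s => E (γ s))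
      (f' := fun s => c • fderiv ℂ (f i) (γ s, u' (γ s)) (0, E (γ s))) (K := ‖c‖ * K) (a := 0)
      (b := 1) (fun s hs => (hθ s hs).continuousAt.continuousWithinAt)
      (fun s hs => (hθ s (Ico_subset_Icc_self hs)).hasDerivWithinAt)
      (by
        show E (γ 0) = 0
        rw [hγ0]
        exact hej0 j hj (P x) (hB' x hx).2 hlP)
      (fun s hs => by
        have h1 := hK _ (hB _ (hγB s (Ico_subset_Icc_self hs))).2
        rw [norm_smul, mul_assoc]
        refine mul_le_mul_of_nonneg_left ?_ (norm_nonneg _)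
        refine (ContinuousLinearMap.le_opNorm _ _).trans ?_
        have h2 : ‖((0 : Cn n), E (γ s))‖ = ‖E (γ s)‖ := by
          rw [Prod.norm_def, norm_zero]
          exact max_eq_right (norm_nonneg _)
        rw [h2]
        exact mul_le_mul_of_nonneg_right h1 (norm_nonneg _))
      1 (right_mem_Icc.2 zero_le_one)
    have hz' : E (γ 1) = 0 := hz
    rw [hγ1] at hz'
    exact sub_eq_zero.1 hz'

end step

theorem pfaff (hFLOW : S_FLOW) : S_PFAFF := by
  intro m k F _ _ _ W f hW hf hint x₀ ρ y₀ hρ hy₀ hx₀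
  have : CompleteSpace F := FiniteDimensional.complete ℂ F
  have key : ∀ S : Finset (Fin k), ∃ (U : Set (Cn (m + k))) (u : Cn (m + k) → F), IsOpen U ∧
      x₀ ∈ U ∧ DifferentiableOn ℂ u U ∧ (∀ x ∈ U, (x, u x) ∈ W) ∧
      (∀ x ∈ U, ∀ j ∈ S, fderiv ℂ u x (ef m j) = f j (x, u x)) ∧
      ∀ x ∈ U, fib x = fib x₀ → u x = y₀ (base x) := by
    intro S
    induction S using Finset.induction_on with
    | empty =>
      have hd : DifferentiableOn ℂ (fun x => y₀ (base x)) {x : Cn (m + k) | base x ∈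
          ball (base x₀) ρ} := hy₀.comp (bsL m k).differentiable.differentiableOn fun x hx => hx
      have hU0 : IsOpen {x : Cn (m + k) | base x ∈ ball (base x₀) ρ} :=
        isOpen_ball.preimage (bsL m k).continuous
      refine ⟨{x : Cn (m + k) | base x ∈ ball (base x₀) ρ} ∩
        (fun x => (x, y₀ (base x))) ⁻¹' W, fun x => y₀ (base x), ?_, ?_, ?_, ?_, ?_, ?_⟩
      · exact (continuousOn_id.prodMk hd.continuousOn).isOpen_inter_preimage hU0 hW
      · exact ⟨mem_ball_self hρ, hx₀⟩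
      · exact hd.mono inter_subset_left
      · exact fun x hx => hx.2
      · intro x _ j hj
        simp at hj
      · exact fun x _ _ => rfl
    | insert i S hi ih =>
      obtain ⟨U, u, hU, hxU, hu, huW, huS, hu0⟩ := ih
      have hl : ∀ j : Fin k, (ContinuousLinearMap.proj (R := ℂ) (φ := fun _ : Fin (m + k) => ℂ)
          (Fin.natAdd m i)) (ef m j) = if i = j then 1 else 0 := by
        intro j
        simp only [ContinuousLinearMap.proj_apply, ef, Pi.single_apply]
        congr 1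
        exact propext ⟨fun h => by simpa using h, fun h => by rw [h]⟩
      obtain ⟨U', u', hU', hxU', hu', huW', huS', hu0'⟩ := step hFLOW W hW f (ef m) hf hint x₀ i
        (ContinuousLinearMap.proj (R := ℂ) (φ := fun _ : Fin (m + k) => ℂ) (Fin.natAdd m i))
        (by rw [hl, if_pos rfl]) (S : Set (Fin k))
        (fun j hj => by
          rw [hl, if_neg]
          rintro rfl
          exact hi (Finset.mem_coe.1 hj)) u U hU hxU hu (huW x₀ hxU)
        (fun x hx j hj => huS x hx j (Finset.mem_coe.1 hj))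
      refine ⟨U', u', hU', hxU', hu', huW', fun x hx j hj => huS' x hx j ?_, fun x hx h0 => ?_⟩
      · rw [← Finset.coe_insert]
        exact Finset.mem_coe.2 hj
      · obtain ⟨h1, h2⟩ := hu0' x hx (by
          rw [ContinuousLinearMap.proj_apply, Pi.sub_apply, sub_eq_zero]
          exact congrFun h0 i)
        rw [h2]
        exact hu0 x h1 h0
  obtain ⟨U, u, hU, hxU, hu, huW, huS, hu0⟩ := key Finset.univ
  obtain ⟨r, hr, hrU⟩ := Metric.isOpen_iff.1 hU x₀ hxU
  exact ⟨r, hr, u, hu.mono hrU, fun x hx => ⟨huW x (hrU hx), fun i =>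
    huS x (hrU hx) i (Finset.mem_univ i)⟩, fun x hx => hu0 x (hrU hx)⟩

end Pool.Agent.Helper32.RK
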