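import Pool.Agent.Helper36.RK.GoalsP
import Pool.Agent.Helper19.Lin.IDT

/-! # RK, packet XI0: generators act on the period map through the symplectic Lie algebra -/

open Complex Metric Set Filter Topology MeasureTheory Matrix
open scoped ContDiff ComplexConjugate ComplexOrder Manifold

namespace Pool.Agent.Helper32.RK

open Pool.Agent.Helper95.Lin Pool.Agent.Helper10.SP Pool.Agent.Helper95.RK Pool.Agent.Helper36.RK

section lin

variable {m n p : Type*}

theorem toC_mul [Fintype n] (A : Matrix m n ℝ) (B : Matrix n p ℝ) : toC (A * B) = toC A * toC B := by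
  ext i j
  simp [toC, Matrix.mul_apply]

theorem toC_tr (A : Matrix m n ℝ) : toC A.transpose = (toC A).transpose := rfl

theorem toC_neg (A : Matrix m n ℝ) : toC (-A) = - toC A := by
  ext i j
  simp [toC]

theorem toC_add (A B : Matrix m n ℝ) : toC (A + B) = toC A + toC B := by
  ext i j
  simp [toC]

theorem toC_sub (A B : Matrix m n ℝ) : toC (A - B) = toC A - toC B := by
  ext i j
  simp [toC]

theorem toC_smul (c : ℝ) (A : Matrix m n ℝ) : toC (c • A) = (c : ℂ) • toC A := by
  ext i j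
  simp [toC]

theorem toC_zero : toC (0 : Matrix m n ℝ) = 0 := by
  ext i j
  simp [toC]

theorem tmul [Fintype n] {α : Type*} {l : Filter α} {A : α → Matrix m n ℂ} {B : α → Matrix n p ℂ}
    {a : Matrix m n ℂ} {b : Matrix n p ℂ} (hA : Tendsto A l (𝓝 a)) (hB : Tendsto B l (𝓝 b)) :
    Tendsto (fun x => A x * B x) l (𝓝 (a * b)) :=
  ((continuous_fst.matrix_mul continuous_snd).tendsto (a, b)).comp (hA.prodMk_nhds hB)

theorem tmulR [Fintype n] {α : Type*} {l : Filter α} {A : α → Matrix m n ℝ} {B : α → Matrix n p ℝ}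
    {a : Matrix m n ℝ} {b : Matrix n p ℝ} (hA : Tendsto A l (𝓝 a)) (hB : Tendsto B l (𝓝 b)) :
    Tendsto (fun x => A x * B x) l (𝓝 (a * b)) :=
  ((continuous_fst.matrix_mul continuous_snd).tendsto (a, b)).comp (hA.prodMk_nhds hB)

theorem ttr {α : Type*} {l : Filter α} {A : α → Matrix m n ℂ}
    {a : Matrix m n ℂ} (hA : Tendsto A l (𝓝 a)) :
    Tendsto (fun x => (A x).transpose) l (𝓝 a.transpose) :=
  ((continuous_id.matrix_transpose).tendsto a).comp hA

theorem ttrR {α : Type*} {l : Filter α} {A : α → Matrix m n ℝ}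
    {a : Matrix m n ℝ} (hA : Tendsto A l (𝓝 a)) :
    Tendsto (fun x => (A x).transpose) l (𝓝 a.transpose) :=
  ((continuous_id.matrix_transpose).tendsto a).comp hA

theorem ttoC {α : Type*} {l : Filter α} {A : α → Matrix m n ℝ}
    {a : Matrix m n ℝ} (hA : Tendsto A l (𝓝 a)) :
    Tendsto (fun x => toC (A x)) l (𝓝 (toC a)) :=
  ((continuous_id.matrix_map Complex.continuous_ofReal).tendsto a).comp hA

end lin

/-- The algebra of the symplectic matrices `R_n`. -/
theorem symp {k : ℕ} {Om Q E : Matrix (Fin (2 * k)) (Fin (2 * k)) ℝ} (hOm : Om.transpose = -Om)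
    (hE1 : Om * E = 1) (hE2 : E * Om = 1) (hQ : Q * Om * Q.transpose = Om) :
    Q * (Om * Q.transpose * E) = 1 ∧ (Om * Q.transpose * E) * Q = 1 ∧
    (Om * Q.transpose * E) * Om = Om * Q.transpose ∧
    Q * Om = Om * (Om * Q.transpose * E).transpose ∧
    (Om * Q.transpose * E) * Om * (Om * Q.transpose * E).transpose = Om := by
  have h1 : Q * (Om * Q.transpose * E) = 1 := by
    rw [← Matrix.mul_assoc, ← Matrix.mul_assoc, hQ, hE1]
  have h2 : (Om * Q.transpose * E) * Q = 1 := mul_eq_one_comm.1 h1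
  have h3 : (Om * Q.transpose * E) * Om = Om * Q.transpose := by
    rw [Matrix.mul_assoc, hE2, Matrix.mul_one]
  have hEt : E.transpose = -E := by
    have h4 : E.transpose * Om = -1 := by
      have h5 : (Om * E).transpose = 1 := by rw [hE1, Matrix.transpose_one]
      rw [Matrix.transpose_mul, hOm, Matrix.mul_neg] at h5
      rw [← h5, neg_neg]
    calc E.transpose = E.transpose * (Om * E) := by rw [hE1, Matrix.mul_one]
      _ = (E.transpose * Om) * E := by rw [Matrix.mul_assoc]
      _ = -E := by rw [h4, Matrix.neg_mul, Matrix.one_mul]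
  have h4 : Q * Om = Om * (Om * Q.transpose * E).transpose := by
    rw [Matrix.transpose_mul, Matrix.transpose_mul, Matrix.transpose_transpose, hOm, hEt,
      ← Matrix.mul_assoc, Matrix.mul_neg, hE1, Matrix.neg_mul, Matrix.one_mul, Matrix.mul_neg,
      neg_neg]
  refine ⟨h1, h2, h3, h4, ?_⟩
  have h5 : (Om * Q.transpose * E) * (Q * Om * Q.transpose) *
      (Om * Q.transpose * E).transpose = (Om * Q.transpose * E) * Om *
        (Om * Q.transpose * E).transpose := by rw [hQ]
  rw [← h5]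
  have h6 : Q.transpose * (Om * Q.transpose * E).transpose = 1 := by
    rw [← Matrix.transpose_mul, h2, Matrix.transpose_one]
  calc (Om * Q.transpose * E) * (Q * Om * Q.transpose) * (Om * Q.transpose * E).transpose
      = ((Om * Q.transpose * E) * Q) * Om * (Q.transpose * (Om * Q.transpose * E).transpose) := by
        simp only [Matrix.mul_assoc]
    _ = Om := by rw [h2, h6, Matrix.one_mul, Matrix.mul_one]

theorem aux (hALGP : S_ALGP) (hDIFP : S_DIFP) {b k : ℕ} (x₀ : Cn b) (r r' : ℝ) (hr' : 0 < r')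
    (hrr : r' < r) (lam : Fin (2 * k) → Cn b → Cn k) (Om : Matrix (Fin (2 * k)) (Fin (2 * k)) ℝ)
    (hPol : Pol (ball x₀ r) lam Om) (V : Cn b → Cn b) (hV : DifferentiableOn ℂ V (ball x₀ r))
    (g : ℕ → Cn b → Cn b) (σ : ℕ → ℝ) (Q : ℕ → Matrix (Fin (2 * k)) (Fin (2 * k)) ℝ)
    (A : ℕ → Cn b → Matrix (Fin k) (Fin k) ℂ) (hσ0 : ∀ n, 0 < σ n) (hσ : Tendsto σ atTop (𝓝 0))
    (hg : ∀ ε > 0, ∀ᶠ n in atTop, ∀ z ∈ ball x₀ r', ‖g n z - z - (σ n : ℂ) • V z‖ ≤ ε * σ n)
    (hQ : ∀ᶠ n in atTop, Q n * Om * (Q n).transpose = Om ∧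
      ∀ z ∈ ball x₀ r', g n z ∈ ball x₀ r ∧ A n z * Lm lam z = Lm lam (g n z) * toC (Q n))
    (q : Matrix (Fin (2 * k)) (Fin (2 * k)) ℝ) (hq : Tendsto Q atTop (𝓝 q)) :
    ∃ ξ, XiOf (ball x₀ r) lam Om V ξ := by
  have hx₀ : x₀ ∈ ball x₀ r := mem_ball_self (hr'.trans hrr)
  have hx₀' : x₀ ∈ ball x₀ r' := mem_ball_self hr'
  have hsub : ball x₀ r' ⊆ ball x₀ r := ball_subset_ball hrr.le
  have hdet := (hALGP _ Om (hPol.pol x₀ hx₀)).1
  have hOm := (hPol.pol x₀ hx₀).alt
  set E := Om⁻¹ with hE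
  have hE1 : Om * E = 1 := Matrix.mul_nonsing_inv _ (isUnit_iff_ne_zero.2 hdet)
  have hE2 : E * Om = 1 := Matrix.nonsing_inv_mul _ (isUnit_iff_ne_zero.2 hdet)
  have hσc : Tendsto (fun n => (σ n : ℂ)) atTop (𝓝 0) := by
    have := (Complex.continuous_ofReal.tendsto 0).comp hσ
    rwa [Complex.ofReal_zero] at this
  have hσn : ∀ n, (σ n : ℂ) ≠ 0 := fun n => Complex.ofReal_ne_zero.2 (hσ0 n).ne'
  -- difference quotients
  have hdq : ∀ z ∈ ball x₀ r', Tendsto (fun n => ((σ n : ℂ)⁻¹) • (g n z - z)) atTop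
      (𝓝 (V z)) := by
    intro z hz
    rw [Metric.tendsto_atTop']
    intro ε hε
    obtain ⟨N, hN⟩ := eventually_atTop.1 (hg (ε / 2) (half_pos hε))
    refine ⟨N, fun n hn => ?_⟩
    have h1 := hN n hn.le z hz
    rw [dist_eq_norm]
    have h2 : (σ n : ℂ)⁻¹ • (g n z - z) - V z = (σ n : ℂ)⁻¹ • (g n z - z - (σ n : ℂ) • V z) := by
      rw [smul_sub _ (g n z - z), smul_smul, inv_mul_cancel₀ (hσn n), one_smul]
    rw [h2, norm_smul, norm_inv, Complex.norm_real, Real.norm_of_nonneg (hσ0 n).le]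
    calc (σ n)⁻¹ * ‖g n z - z - (σ n : ℂ) • V z‖ ≤ (σ n)⁻¹ * (ε / 2 * σ n) :=
          mul_le_mul_of_nonneg_left h1 (inv_nonneg.2 (hσ0 n).le)
      _ = ε / 2 := by
          have := (hσ0 n).ne'
          field_simp
      _ < ε := half_lt_self hε
  have hdz : ∀ z ∈ ball x₀ r', Tendsto (fun n => g n z - z) atTop (𝓝 0) := by
    intro z hz
    have h1 := hσc.smul (hdq z hz)
    rw [zero_smul] at h1
    refine h1.congr fun n => ?_
    rw [smul_smul, mul_inv_cancel₀ (hσn n), one_smul]
  have hY : ∀ z ∈ ball x₀ r', Tendsto (fun n => ((σ n : ℂ)⁻¹) • (Lm lam (g n z) - Lm lam z)) atTop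
      (𝓝 (dL lam z (V z))) := by
    intro z hz
    refine tendsto_pi_nhds.2 fun p => tendsto_pi_nhds.2 fun j => ?_
    have h1 : HasFDerivWithinAt (lam j) (fderiv ℂ (lam j) z) univ z :=
      (((hPol.holo j).differentiableAt (hPol.isOpen.mem_nhds (hsub hz))).hasFDerivAt).hasFDerivWithinAt
    have h2 := h1.lim (hdz z hz) (Eventually.of_forall fun n => mem_univ _) (hdq z hz)
    have h3 := (tendsto_pi_nhds.1 h2) p
    refine h3.congr fun n => ?_
    simp [Lm]
  have hL : ∀ z ∈ ball x₀ r', Tendsto (fun n => Lm lam (g n z)) atTop (𝓝 (Lm lam z)) := by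
    intro z hz
    have h1 := (hσc.smul (hY z hz)).add (tendsto_const_nhds (x := Lm lam z))
    rw [zero_smul, zero_add] at h1
    refine h1.congr fun n => ?_
    rw [smul_smul, mul_inv_cancel₀ (hσn n), one_smul, sub_add_cancel]
  -- the limit
  have hqOm : q * Om * q.transpose = Om :=
    tendsto_nhds_unique_of_eventuallyEq (tmulR (tmulR hq tendsto_const_nhds) (ttrR hq))
      tendsto_const_nhds (hQ.mono fun n hn => hn.1)
  have hiso : ∀ z ∈ ball x₀ r, Lm lam z * toC Om * (Lm lam z).transpose = 0 :=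
    fun z hz => (hPol.pol z hz).iso
  have hQ0 : ∀ᶠ n in atTop, ∀ z ∈ ball x₀ r',
      Lm lam (g n z) * toC (Q n) * toC Om * (Lm lam z).transpose = 0 := by
    filter_upwards [hQ] with n hn z hz
    rw [← (hn.2 z hz).2, Matrix.mul_assoc (A n z), Matrix.mul_assoc (A n z), hiso z (hsub hz),
      Matrix.mul_zero]
  have hqL : ∀ z ∈ ball x₀ r', Lm lam z * toC q * toC Om * (Lm lam z).transpose = 0 := by
    intro z hz
    refine tendsto_nhds_unique_of_eventuallyEq (tmul (tmul (tmul (hL z hz) (ttoC hq))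
      tendsto_const_nhds) tendsto_const_nhds) tendsto_const_nhds (hQ0.mono fun n hn => hn z hz)
  have ha : ∀ z ∈ ball x₀ r', ∃ a : Matrix (Fin k) (Fin k) ℂ, Lm lam z * toC q = a * Lm lam z :=
    fun z hz => (hALGP _ Om (hPol.pol z (hsub hz))).2.2.1 _ (hqL z hz)
  obtain ⟨s1, s2, s3, s4, s5⟩ := symp hOm hE1 hE2 hqOm
  set q' := Om * q.transpose * E with hq'
  set R : ℕ → Matrix (Fin (2 * k)) (Fin (2 * k)) ℝ := fun n => Q n * q' with hR
  set S : ℕ → Matrix (Fin (2 * k)) (Fin (2 * k)) ℝ := fun n => Om * (R n).transpose * E with hS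
  have hR1 : Tendsto R atTop (𝓝 1) := by
    have := tmulR hq (tendsto_const_nhds (x := q') (f := atTop (α := ℕ)))
    rwa [s1] at this
  have hS1 : Tendsto S atTop (𝓝 1) := by
    have := tmulR (tmulR (tendsto_const_nhds (x := Om) (f := atTop (α := ℕ))) (ttrR hR1))
      (tendsto_const_nhds (x := E))
    rwa [Matrix.transpose_one, Matrix.mul_one, hE1] at this
  have hROm : ∀ᶠ n in atTop, R n * Om * (R n).transpose = Om := by
    filter_upwards [hQ] with n hn
    have h1 : R n * Om * (R n).transpose = Q n * (q' * Om * q'.transpose) * (Q n).transpose := by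
      simp only [hR, Matrix.transpose_mul, Matrix.mul_assoc]
    rw [h1, s5, hn.1]
  set X : ℕ → Matrix (Fin (2 * k)) (Fin (2 * k)) ℝ := fun n => (2 * σ n)⁻¹ • (R n - S n) with hX
  have hXSp : ∀ᶠ n in atTop, InSp Om (X n) := by
    filter_upwards [hROm] with n hn
    obtain ⟨-, -, t3, t4, -⟩ := symp hOm hE1 hE2 hn
    unfold InSp
    have h1 : S n * Om = Om * (R n).transpose := t3
    have h2 : R n * Om = Om * (S n).transpose := t4
    simp only [hX, Matrix.transpose_smul, Matrix.transpose_sub, Matrix.smul_mul, Matrix.mul_smul,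
      Matrix.sub_mul, Matrix.mul_sub]
    rw [h1, h2, ← smul_add]
    simp
  -- the equations (b), (c)
  have hb : ∀ᶠ n in atTop, ∀ z ∈ ball x₀ r',
      Lm lam (g n z) * toC (R n) * toC Om * (Lm lam z).transpose = 0 := by
    filter_upwards [hQ0] with n hn z hz
    obtain ⟨a, ha⟩ := ha z hz
    have h1 : toC (R n) * toC Om = toC (Q n) * (toC Om * (toC q).transpose) := by
      rw [← toC_tr, ← toC_mul, ← toC_mul, ← toC_mul, ← s3, hR]
      simp only [Matrix.mul_assoc]
    calc Lm lam (g n z) * toC (R n) * toC Om * (Lm lam z).transpose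
        = Lm lam (g n z) * (toC (R n) * toC Om) * (Lm lam z).transpose := by
          simp only [Matrix.mul_assoc]
      _ = Lm lam (g n z) * toC (Q n) * toC Om * (Lm lam z * toC q).transpose := by
          rw [h1, Matrix.transpose_mul]
          simp only [Matrix.mul_assoc]
      _ = (Lm lam (g n z) * toC (Q n) * toC Om * (Lm lam z).transpose) * a.transpose := by
          rw [ha, Matrix.transpose_mul]
          simp only [Matrix.mul_assoc]
      _ = 0 := by rw [hn z hz, Matrix.zero_mul]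
  have hc : ∀ᶠ n in atTop, ∀ z ∈ ball x₀ r',
      Lm lam z * toC (S n) * toC Om * (Lm lam (g n z)).transpose = 0 := by
    filter_upwards [hb, hROm] with n hn hn2 z hz
    obtain ⟨-, -, t3, -, -⟩ := symp hOm hE1 hE2 hn2
    have h1 : toC (S n) * toC Om = toC Om * (toC (R n)).transpose := by
      rw [← toC_tr, ← toC_mul, ← toC_mul]
      exact congrArg toC t3
    have h2 := congrArg Matrix.transpose (hn z hz)
    rw [Matrix.transpose_mul, Matrix.transpose_mul, Matrix.transpose_mul, Matrix.transpose_zero,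
      Matrix.transpose_transpose, ← toC_tr Om, hOm, toC_neg, Matrix.neg_mul, Matrix.mul_neg,
      neg_eq_zero] at h2
    rw [Matrix.mul_assoc (Lm lam z), h1]
    rw [← h2]
    simp only [Matrix.mul_assoc]
  -- convergence
  have hsV : ∀ z ∈ ball x₀ r', (sV lam Om z (V z)).transpose = sV lam Om z (V z) :=
    fun z hz => (hDIFP _ lam Om hPol).1 z (hsub hz) (V z)
  have hev : ∀ z ∈ ball x₀ r', Tendsto (fun n => Lm lam z * toC (X n) * toC Om *
      (Lm lam z).transpose) atTop (𝓝 (- sV lam Om z (V z))) := by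
    intro z hz
    have h1 : Tendsto (fun n => (2 : ℂ)⁻¹ • (Lm lam z * toC (S n) * toC Om *
        (((σ n : ℂ)⁻¹) • (Lm lam (g n z) - Lm lam z)).transpose -
        (((σ n : ℂ)⁻¹) • (Lm lam (g n z) - Lm lam z)) * toC (R n) * toC Om *
          (Lm lam z).transpose)) atTop
        (𝓝 ((2 : ℂ)⁻¹ • (Lm lam z * toC (1 : Matrix (Fin (2 * k)) (Fin (2 * k)) ℝ) * toC Om * (dL lam z (V z)).transpose -
          dL lam z (V z) * toC (1 : Matrix (Fin (2 * k)) (Fin (2 * k)) ℝ) * toC Om * (Lm lam z).transpose))) := by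
      refine Tendsto.const_smul (Tendsto.sub ?_ ?_) _
      · exact tmul (tmul (tmul tendsto_const_nhds (ttoC hS1)) tendsto_const_nhds) (ttr (hY z hz))
      · exact tmul (tmul (tmul (hY z hz) (ttoC hR1)) tendsto_const_nhds) tendsto_const_nhds
    have h1' : toC (1 : Matrix (Fin (2 * k)) (Fin (2 * k)) ℝ) = 1 := by
      ext i j
      simp [toC, Matrix.one_apply]
      split_ifs <;> simp
    have h2 : (2 : ℂ)⁻¹ • (Lm lam z * toC (1 : Matrix (Fin (2 * k)) (Fin (2 * k)) ℝ) * toC Om * (dL lam z (V z)).transpose -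
          dL lam z (V z) * toC (1 : Matrix (Fin (2 * k)) (Fin (2 * k)) ℝ) * toC Om * (Lm lam z).transpose) = - sV lam Om z (V z) := by
      have h3 : Lm lam z * toC Om * (dL lam z (V z)).transpose = - sV lam Om z (V z) := by
        rw [← hsV z hz]
        unfold sV
        rw [Matrix.transpose_mul, Matrix.transpose_mul, Matrix.transpose_transpose, ← toC_tr Om,
          hOm, toC_neg, Matrix.neg_mul, Matrix.mul_neg, neg_neg, Matrix.mul_assoc]
      rw [h1', Matrix.mul_one, Matrix.mul_one, h3]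
      have h4 : dL lam z (V z) * toC Om * (Lm lam z).transpose = sV lam Om z (V z) := rfl
      rw [h4]
      ext i j
      simp only [Matrix.smul_apply, Matrix.sub_apply, Matrix.neg_apply, smul_eq_mul]
      ring
    rw [h2] at h1
    refine h1.congr' ?_
    filter_upwards [hb, hc] with n hn1 hn2
    have h5 := hn1 z hz
    have h6 := hn2 z hz
    have h7 : toC (X n) = ((2 * (σ n : ℂ))⁻¹) • (toC (R n) - toC (S n)) := by
      simp only [hX]
      rw [toC_smul, toC_sub]
      push_cast
      rfl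
    rw [h7]
    simp only [Matrix.transpose_smul, Matrix.transpose_sub, Matrix.smul_mul, Matrix.mul_smul,
      Matrix.sub_mul, Matrix.mul_sub, h5, h6]
    ext i j
    simp only [Matrix.smul_apply, Matrix.sub_apply, Matrix.zero_apply, smul_eq_mul]
    have := hσn n
    field_simp
    ring
  -- closedness
  let Sp : Submodule ℝ (Matrix (Fin (2 * k)) (Fin (2 * k)) ℝ) :=
    { carrier := {ξ | InSp Om ξ}
      zero_mem' := by simp [InSp]
      add_mem' := by
        intro x y hx hy
        simp only [InSp, mem_ofPred_eq] at hx hy ⊢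
        rw [Matrix.add_mul, Matrix.transpose_add, Matrix.mul_add, add_add_add_comm, hx, hy,
          add_zero]
      smul_mem' := by
        intro c x hx
        simp only [InSp, mem_ofPred_eq] at hx ⊢
        rw [Matrix.smul_mul, Matrix.transpose_smul, Matrix.mul_smul, ← smul_add, hx, smul_zero] }
  let ev : Matrix (Fin (2 * k)) (Fin (2 * k)) ℝ →ₗ[ℝ]
      (ball x₀ r' → Matrix (Fin k) (Fin k) ℂ) :=
    { toFun := fun Y z => Lm lam z * toC Y * toC Om * (Lm lam z).transpose
      map_add' := by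
        intro x y
        funext z
        simp only [toC_add, Matrix.mul_add, Matrix.add_mul, Pi.add_apply]
      map_smul' := by
        intro c x
        funext z
        simp only [toC_smul, Matrix.mul_smul, Matrix.smul_mul, Pi.smul_apply, RingHom.id_apply]
        ext i j
        simp }
  have hcl : IsClosed ((Sp.map ev : Submodule ℝ _) : Set (ball x₀ r' → Matrix (Fin k) (Fin k) ℂ)) :=
    Submodule.closed_of_finiteDimensional _
  have hmem : (fun z : ball x₀ r' => - sV lam Om (z : Cn b) (V z)) ∈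
      ((Sp.map ev : Submodule ℝ _) : Set (ball x₀ r' → Matrix (Fin k) (Fin k) ℂ)) := by
    refine hcl.mem_of_tendsto (b := atTop) (f := fun n => ev (X n)) ?_ ?_
    · rw [tendsto_pi_nhds]
      intro z
      exact hev z z.2
    · filter_upwards [hXSp] with n hn
      exact Submodule.mem_map_of_mem hn
  obtain ⟨ξ, hξ, hξ2⟩ := hmem
  refine ⟨ξ, hξ, ?_⟩
  have hξ3 : ∀ z ∈ ball x₀ r', Lm lam z * toC ξ * toC Om * (Lm lam z).transpose =
      - sV lam Om z (V z) := fun z hz => congrFun hξ2 ⟨z, hz⟩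
  -- identity theorem
  intro z hz
  ext p l
  have hid := Pool.Agent.Helper19.Lin.idt (n := b) (m := 1) (ball x₀ r) isOpen_ball
    (convex_ball x₀ r).isPreconnected
    (fun y _ => sV lam Om y (V y) p l + (Lm lam y * toC ξ * toC Om * (Lm lam y).transpose) p l)
    (by
      rw [differentiableOn_pi]
      intro _
      refine ((hDIFP _ lam Om hPol).2.2.1 V hV p l).add ?_
      simp only [Matrix.mul_apply, Matrix.transpose_apply]
      refine DifferentiableOn.fun_sum fun i _ => DifferentiableOn.mul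
        (DifferentiableOn.fun_sum fun j _ => DifferentiableOn.mul (DifferentiableOn.fun_sum
          fun j' _ => DifferentiableOn.mul ?_ (differentiableOn_const _))
          (differentiableOn_const _)) ?_
      · exact (differentiableOn_pi.1 (hPol.holo j')) p
      · exact (differentiableOn_pi.1 (hPol.holo i)) l)
    x₀ hx₀ (by
      filter_upwards [isOpen_ball.mem_nhds hx₀'] with y hy
      funext _
      simp only [hξ3 y hy, Matrix.neg_apply, add_neg_cancel, Pi.zero_apply]) z hz
  have h1 := congrFun hid 0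
  simp only [Pi.zero_apply] at h1
  rw [Matrix.neg_apply]
  exact eq_neg_of_add_eq_zero_left h1

theorem subs {m : ℕ} {C : ℝ} (x : ℕ → Fin m → Fin m → ℝ) (h : ∀ n i j, |x n i j| ≤ C) :
    ∃ (q : Fin m → Fin m → ℝ) (φ : ℕ → ℕ), StrictMono φ ∧ Tendsto (x ∘ φ) atTop (𝓝 q) := by
  have hcpt : IsCompact (Set.pi univ fun _ : Fin m => Set.pi univ fun _ : Fin m =>
      Icc (-C) C) := isCompact_univ_pi fun _ => isCompact_univ_pi fun _ => isCompact_Icc
  obtain ⟨q, -, φ, hφ, hq⟩ := hcpt.tendsto_subseq (x := x)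
    (fun n => by
      rw [Set.mem_univ_pi]
      intro i
      rw [Set.mem_univ_pi]
      intro j
      exact abs_le.1 (h n i j))
  exact ⟨q, φ, hφ, hq⟩

theorem xi0 (hALGP : S_ALGP) (hDIFP : S_DIFP) : S_XI0 := by
  intro b k x₀ r r' hr' hrr lam Om hPol V hV g σ Q A hσ0 hσ hg hQ hC
  obtain ⟨C, hC⟩ := hC
  obtain ⟨q, φ, hφ, hq⟩ := subs (C := C) (fun n i j => Q n i j) hC
  have hφt := hφ.tendsto_atTop
  exact aux hALGP hDIFP x₀ r r' hr' hrr lam Om hPol V hV (fun n => g (φ n)) (fun n => σ (φ n))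
    (fun n => Q (φ n)) (fun n => A (φ n)) (fun n => hσ0 _) (hσ.comp hφt)
    (fun ε hε => hφt.eventually (hg ε hε)) (hφt.eventually hQ) q hq

end Pool.Agent.Helper32.RK
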